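import Mathlib

/-!
# Alternating forms of small rank and points of the moment curve

If an alternating form `w` on `k ^ d` is a sum of `m` forms `f ∧ g` and vanishes on the pairs
`γ (t), γ (g ^ i t)` for `1 ≤ i ≤ m` and at least `2 d - 3` nonzero elements `t` of `k`, then it
vanishes. Application: commutation of `d` matrices.
-/

set_option autoImplicit false

open Matrix Finset

namespace Pool.Agent.Helper84.TC9

variable {k : Type*} [Field k]

/-- A power sum with few terms and many vanishing moments is trivial. -/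
theorem vandermonde_zero {ι : Type*} (B : Finset ι) (y v : ι → k)
    (hy : Set.InjOn y B) {N : ℕ} (hN : B.card ≤ N)
    (h : ∀ j < N, ∑ b ∈ B, v b * y b ^ j = 0) : ∀ b ∈ B, v b = 0 := by
  classical
  let e : Fin B.card ≃ B := B.equivFin.symm
  have h1 : (fun i : Fin B.card => v (e i)) = 0 := by
    refine Matrix.eq_zero_of_forall_pow_sum_mul_pow_eq_zero
      (f := fun i : Fin B.card => y (e i)) ?_ ?_
    · intro i j hij
      have := hy (e i).2 (e j).2 hij
      exact e.injective (Subtype.ext this)
    · intro i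
      have h2 := h i (lt_of_lt_of_le i.2 hN)
      rw [← Finset.sum_coe_sort] at h2
      rw [← h2]
      exact Fintype.sum_equiv e _ _ (fun _ => rfl)
  intro b hb
  have := congrFun h1 (e.symm ⟨b, hb⟩)
  simpa using this

/-- A polynomial function without constant coefficient, of degree at most `D`, with `D` nonzero
roots, is trivial. -/
theorem coeff_zero {D : ℕ} (c : ℕ → k) (T : Finset k) (h0 : (0 : k) ∉ T) (hT : D ≤ T.card)
    (h : ∀ t ∈ T, ∑ s ∈ Finset.range D, c (s + 1) * t ^ (s + 1) = 0) :
    ∀ s < D, c (s + 1) = 0 := by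
  classical
  let P : Polynomial k := ∑ s ∈ Finset.range D, Polynomial.monomial s (c (s + 1))
  have hP : P = 0 := by
    by_contra hne
    have hdeg : P.natDegree < D := by
      have h1 : P.degree < D := by
        refine (Polynomial.degree_lt_iff_coeff_zero _ _).2 ?_
        intro m hm
        rw [Polynomial.finsetSum_coeff]
        refine Finset.sum_eq_zero fun s hs => ?_
        rw [Polynomial.coeff_monomial, if_neg]
        have := Finset.mem_range.1 hs
        omega
      exact (Polynomial.natDegree_lt_iff_degree_lt hne).2 h1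
    have hroot : T.val ⊆ P.roots := by
      intro t ht
      rw [Polynomial.mem_roots hne, Polynomial.IsRoot.def]
      have ht0 : t ≠ 0 := fun hh => h0 (hh ▸ ht)
      have h2 := h t ht
      have h3 : P.eval t * t = 0 := by
        rw [← h2, Polynomial.eval_finsetSum, Finset.sum_mul]
        refine Finset.sum_congr rfl fun s _ => ?_
        rw [Polynomial.eval_monomial]
        ring
      exact (mul_eq_zero.1 h3).resolve_right ht0
    have h4 := Polynomial.card_le_degree_of_subset_roots (p := P) (Z := T) hroot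
    omega
  intro s hs
  have h1 : P.coeff s = 0 := by rw [hP, Polynomial.coeff_zero]
  rw [Polynomial.finsetSum_coeff] at h1
  rw [Finset.sum_eq_single s] at h1
  · simpa [Polynomial.coeff_monomial] using h1
  · intro b _ hb
    rw [Polynomial.coeff_monomial, if_neg hb]
  · intro hh
    exact absurd (Finset.mem_range.2 hs) hh

/-- A triangular square block of a matrix of rank at most `r` has size at most `r`. -/
theorem card_le_of_triangular {d : ℕ} (w : Matrix (Fin d) (Fin d) k) {r : ℕ} (hr : w.rank ≤ r)
    (B : Finset (Fin d)) (a : Fin d → Fin d) (hdiag : ∀ b ∈ B, w (a b) b ≠ 0)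
    (htri : ∀ b ∈ B, ∀ b' ∈ B, b < b' → w (a b') b = 0) : B.card ≤ r := by
  classical
  let W : Matrix B B k := w.submatrix (fun b : B => a b) (fun b : B => (b : Fin d))
  have hdet : W.det ≠ 0 := by
    have : W.BlockTriangular (id : B → B) := by
      intro i j hij
      exact htri _ j.2 _ i.2 hij
    rw [Matrix.det_of_isUpperTriangular this]
    exact Finset.prod_ne_zero_iff.2 fun b _ => hdiag _ b.2
  have h1 : W.rank = Fintype.card B :=
    Matrix.rank_of_isUnit W ((Matrix.isUnit_iff_isUnit_det _).2 (Ne.isUnit hdet))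
  have h2 : W.rank ≤ w.rank := by
    have h3 : W = (w.submatrix (fun b : B => a b) id).submatrix id (fun b : B => (b : Fin d)) := by
      ext i j; rfl
    have h4 : ∀ {m n l : Type} [Fintype m] [Fintype n] [Fintype l] [DecidableEq m]
        [DecidableEq n] (A : Matrix m n k) (f : l → m), (A.submatrix f id).rank ≤ A.rank := by
      intro m n l _ _ _ _ _ A f
      have h5 : A.submatrix f id = ((1 : Matrix m m k).submatrix f id) * A := by
        ext i j
        simp [Matrix.mul_apply, Matrix.one_apply]
      rw [h5]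
      exact Matrix.rank_mul_le_right _ _
    rw [h3, ← Matrix.rank_transpose]
    rw [Matrix.transpose_submatrix]
    refine (h4 _ _).trans ?_
    rw [Matrix.rank_transpose]
    exact h4 _ _
  rw [Fintype.card_coe] at h1
  omega

/-- the moments of the antidiagonal number `s` of a matrix -/
noncomputable def E {d : ℕ} (w : Matrix (Fin d) (Fin d) k) (g : k) (s : ℕ) (j : ℤ) : k :=
  ∑ a : Fin d, ∑ b : Fin d, if (a : ℕ) + b = s then w a b * (g ^ j) ^ (b : ℕ) else 0

theorem E_neg {d : ℕ} (w : Matrix (Fin d) (Fin d) k) (hw : ∀ a b, w a b = -w b a) (g : k)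
    (hg0 : g ≠ 0) (s : ℕ) (j : ℤ) : E w g s (-j) = -(g ^ (-j)) ^ s * E w g s j := by
  unfold E
  rw [Finset.sum_comm, Finset.mul_sum]
  refine Finset.sum_congr rfl fun a _ => ?_
  rw [Finset.mul_sum]
  refine Finset.sum_congr rfl fun b _ => ?_
  by_cases h : (a : ℕ) + b = s
  · rw [if_pos h, if_pos (by omega), hw b a]
    have h1 : (g ^ (-j)) ^ s * (g ^ j) ^ (b : ℕ) = (g ^ (-j)) ^ (a : ℕ) := by
      rw [← h, pow_add, mul_assoc, ← mul_pow, ← zpow_add₀ hg0]
      simp
    rw [← h1]
    ring
  · rw [if_neg h, if_neg (by omega), mul_zero]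

/-- An alternating form of rank at most `2 m` which vanishes on `γ t, γ (g ^ i t)` for
`1 ≤ i ≤ m` and `2 d - 3` nonzero values of `t` is zero. -/
theorem alt_zero {d m : ℕ} (w : Matrix (Fin d) (Fin d) k) (hr : w.rank ≤ 2 * m)
    (hw : ∀ a b, w a b = -w b a) (h2 : (2 : k) ≠ 0) (g : k) (hg0 : g ≠ 0)
    (hg : Function.Injective fun b : Fin d => g ^ (b : ℕ)) (T : Finset k) (h0 : (0 : k) ∉ T)
    (hT : 2 * d - 3 ≤ T.card)
    (h : ∀ t ∈ T, ∀ i : ℕ, 1 ≤ i → i ≤ m →
      ∑ a : Fin d, ∑ b : Fin d, w a b * t ^ (a : ℕ) * (g ^ i * t) ^ (b : ℕ) = 0) : w = 0 := by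
  classical
  have hd : ∀ a, w a a = 0 := by
    intro a
    have h3 : (2 : k) * w a a = 0 := by linear_combination hw a a
    exact (mul_eq_zero.1 h3).resolve_left h2
  -- positive moments
  have hpos : ∀ i : ℕ, 1 ≤ i → i ≤ m → ∀ s, E w g s i = 0 := by
    intro i hi him
    have h1 : ∀ s < 2 * d - 3, E w g (s + 1) i = 0 := by
      refine coeff_zero (fun s => E w g s i) T h0 hT ?_
      intro t ht
      rw [← h t ht i hi him]
      unfold E
      simp only [Finset.sum_mul]
      rw [Finset.sum_comm]
      refine Finset.sum_congr rfl fun a _ => ?_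
      rw [Finset.sum_comm]
      refine Finset.sum_congr rfl fun b _ => ?_
      by_cases hab : w a b = 0
      · simp [hab]
      · have hne : a ≠ b := fun hh => hab (hh ▸ hd a)
        have ha := a.2
        have hb := b.2
        have hne' : (a : ℕ) ≠ b := fun hh => hne (Fin.ext hh)
        rw [Finset.sum_eq_single ((a : ℕ) + b - 1)]
        · rw [if_pos (by omega)]
          have h3 : (a : ℕ) + b - 1 + 1 = a + b := by omega
          rw [h3, mul_pow, pow_add, zpow_natCast]
          ring
        · intro s _ hs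
          rw [if_neg (by omega), zero_mul]
        · intro hh
          exact absurd (Finset.mem_range.2 (by omega)) hh
    intro s
    by_cases hs : 1 ≤ s ∧ s - 1 < 2 * d - 3
    · have := h1 (s - 1) hs.2
      rwa [Nat.sub_add_cancel hs.1] at this
    · unfold E
      refine Finset.sum_eq_zero fun a _ => Finset.sum_eq_zero fun b _ => ?_
      split_ifs with hab
      · have ha := a.2
        have hb := b.2
        have hab' : a = b := Fin.ext (by omega)
        rw [hab', hd b, zero_mul]
      · rfl
  have hall : ∀ j : ℤ, -m ≤ j → j ≤ m → ∀ s, E w g s j = 0 := by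
    intro j hj1 hj2 s
    rcases lt_trichotomy j 0 with hj | hj | hj
    · obtain ⟨i, hi⟩ : ∃ i : ℕ, -j = i := ⟨(-j).toNat, by omega⟩
      have h3 := E_neg w hw g hg0 s i
      rw [hpos i (by omega) (by omega) s, mul_zero] at h3
      have : j = -(i : ℤ) := by omega
      rw [this]
      exact h3
    · subst hj
      have h3 := E_neg w hw g hg0 s 0
      simp only [neg_zero, zpow_zero, one_pow, neg_mul, one_mul] at h3
      have h4 : (2 : k) * E w g s 0 = 0 := by linear_combination h3
      exact (mul_eq_zero.1 h4).resolve_left h2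
    · obtain ⟨i, hi⟩ : ∃ i : ℕ, j = i := ⟨j.toNat, by omega⟩
      rw [hi]
      exact hpos i (by omega) (by omega) s
  by_contra hne
  have hex : ∃ s : ℕ, ∃ a b : Fin d, (a : ℕ) + b = s ∧ w a b ≠ 0 := by
    by_contra hh
    push Not at hh
    exact hne (by ext a b; exact hh _ a b rfl)
  let s := Nat.find hex
  obtain ⟨a₀, b₀, hs0, hw0⟩ := Nat.find_spec hex
  have hmin : ∀ a b : Fin d, (a : ℕ) + b < s → w a b = 0 := by
    intro a b hab
    by_contra hh
    exact Nat.find_min hex hab ⟨a, b, rfl, hh⟩
  let α : Fin d → Fin d := fun b => if hb : (b : ℕ) ≤ s ∧ s - b < d then ⟨s - b, hb.2⟩ else b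
  let B : Finset (Fin d) := Finset.univ.filter fun b => ((b : ℕ) ≤ s ∧ s - b < d) ∧ w (α b) b ≠ 0
  have hα : ∀ b : Fin d, (b : ℕ) ≤ s ∧ s - b < d → ((α b : ℕ)) + b = s := by
    intro b hb
    have : (α b : ℕ) = s - b := by simp only [α, dif_pos hb]
    omega
  have hB : ∀ b ∈ B, ((b : ℕ) ≤ s ∧ s - b < d) ∧ w (α b) b ≠ 0 := by
    intro b hb
    exact (Finset.mem_filter.1 hb).2
  have hcard : B.card ≤ 2 * m := by
    refine card_le_of_triangular w hr B α (fun b hb => (hB b hb).2) ?_
    intro b hb b' hb' hlt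
    refine hmin _ _ ?_
    have := hα b' (hB b' hb').1
    have h3 : (b : ℕ) < b' := hlt
    omega
  have hE : ∀ j : ℤ, E w g s j = ∑ b ∈ B, w (α b) b * (g ^ j) ^ (b : ℕ) := by
    intro j
    unfold E
    rw [Finset.sum_comm, Finset.sum_filter]
    refine Finset.sum_congr rfl fun b _ => ?_
    by_cases hb : (b : ℕ) ≤ s ∧ s - b < d
    · have h3 := hα b hb
      rw [Finset.sum_eq_single (α b)]
      · rw [if_pos h3]
        by_cases h4 : w (α b) b = 0
        · simp [h4]
        · rw [if_pos ⟨hb, h4⟩]
      · intro a _ ha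
        rw [if_neg]
        intro hh
        exact ha (Fin.ext (by omega))
      · intro hh
        exact absurd (Finset.mem_univ _) hh
    · rw [if_neg (fun hh => hb hh.1)]
      refine Finset.sum_eq_zero fun a _ => ?_
      rw [if_neg]
      intro hh
      have := a.2
      exact hb ⟨by omega, by omega⟩
  have hzero := vandermonde_zero B (fun b => g ^ (b : ℕ))
    (fun b => w (α b) b * ((g ^ (b : ℕ)) ^ m)⁻¹) (fun x _ y _ hxy => hg hxy)
    (N := 2 * m + 1) (by omega) (by
      intro j hj
      have h3 := hall ((j : ℤ) - m) (by omega) (by omega) s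
      rw [hE] at h3
      rw [← h3]
      refine Finset.sum_congr rfl fun b _ => ?_
      rw [zpow_sub₀ hg0, zpow_natCast, zpow_natCast, div_pow, ← pow_mul, ← pow_mul, ← pow_mul,
        ← pow_mul, mul_comm (b : ℕ) m, mul_comm (b : ℕ) j]
      ring)
  have hb0 : ((b₀ : ℕ) ≤ s ∧ s - b₀ < d) := by
    have := a₀.2
    constructor
    · have : s = (a₀ : ℕ) + b₀ := hs0.symm
      omega
    · have : s = (a₀ : ℕ) + b₀ := hs0.symm
      omega
  have hα0 : α b₀ = a₀ := Fin.ext (by have := hα b₀ hb0; have h5 : s = (a₀ : ℕ) + b₀ := hs0.symm; omega)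
  have hmem : b₀ ∈ B := Finset.mem_filter.2 ⟨Finset.mem_univ _, hb0, by rw [hα0]; exact hw0⟩
  have := hzero b₀ hmem
  refine (hB b₀ hmem).2 ?_
  refine (mul_eq_zero.1 this).resolve_right ?_
  exact inv_ne_zero (pow_ne_zero _ (pow_ne_zero _ hg0))

end Pool.Agent.Helper84.TC9
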