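import Mathlib
import Pool.Agent.Helper84.TC9.Alt

/-!
# Commutation of matrices from relations along the moment curve
-/

set_option autoImplicit false

open Matrix Finset

namespace Pool.Agent.Helper84.TC9

variable {k : Type*} [Field k]

/-- `d` matrices of size `n` commute if `M (γ t)` and `M (γ (g ^ i t))` commute for `1 ≤ i < n` and
`2 d - 3` nonzero values of `t`; here `M (γ t) = ∑ t ^ a M_a`. -/
theorem commute_of_moment {n d : ℕ} (M : Fin d → Matrix (Fin n) (Fin n) k)
    (h2 : (2 : k) ≠ 0) (g : k) (hg0 : g ≠ 0)
    (hg : Function.Injective fun b : Fin d => g ^ (b : ℕ)) (T : Finset k) (h0 : (0 : k) ∉ T)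
    (hT : 2 * d - 3 ≤ T.card)
    (h : ∀ t ∈ T, ∀ i : ℕ, 1 ≤ i → i < n →
      (∑ a : Fin d, t ^ (a : ℕ) • M a) * (∑ a : Fin d, (g ^ i * t) ^ (a : ℕ) • M a) =
      (∑ a : Fin d, (g ^ i * t) ^ (a : ℕ) • M a) * (∑ a : Fin d, t ^ (a : ℕ) • M a)) :
    ∀ a b, M a * M b = M b * M a := by
  classical
  have key : ∀ j i : Fin n, (fun a b : Fin d => (M a * M b - M b * M a) j i) =
      (0 : Matrix (Fin d) (Fin d) k) := by
    intro j i
    let ι := {l : Fin n // l ≠ i}
    let f : ι → Fin d → k := fun l a => M a j l - if (l : Fin n) = j then M a i i else 0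
    let q : ι → Fin d → k := fun l a => M a l i
    let F : Matrix (Fin d) (ι ⊕ ι) k := fun a => Sum.elim (fun l => f l a) (fun l => q l a)
    let G : Matrix (ι ⊕ ι) (Fin d) k := fun x b => Sum.elim (fun l => q l b) (fun l => -f l b) x
    have hw : ∀ a b, (M a * M b - M b * M a) j i = (F * G) a b := by
      intro a b
      have h1 : (F * G) a b = ∑ l : ι, (f l a * q l b - q l a * f l b) := by
        rw [Matrix.mul_apply, Fintype.sum_sum_type, Finset.sum_sub_distrib, sub_eq_add_neg,
          ← Finset.sum_neg_distrib]
        congr 1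
        refine Finset.sum_congr rfl fun l _ => ?_
        simp only [F, G, Sum.elim_inr]
        ring
      rw [h1, Matrix.sub_apply, Matrix.mul_apply, Matrix.mul_apply, ← Finset.sum_sub_distrib,
        Fintype.sum_eq_add_sum_subtype_ne _ i]
      by_cases hji : j = i
      · subst hji
        rw [mul_comm (M a j j), sub_self, zero_add]
        refine Finset.sum_congr rfl fun l _ => ?_
        simp only [f, q, if_neg l.2, sub_zero]
        ring
      · have h3 : ∀ l : ι, f l a * q l b - q l a * f l b =
            (M a j l * M b l i - M b j l * M a l i) +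
            (if (l : Fin n) = j then M a j i * M b i i - M b j i * M a i i else 0) := by
          intro l
          by_cases hl : (l : Fin n) = j
          · simp only [f, q, hl, if_true]
            ring
          · simp only [f, q, hl, if_false, sub_zero]
            ring
        rw [Finset.sum_congr rfl fun l _ => h3 l, Finset.sum_add_distrib, add_comm]
        congr 1
        rw [Finset.sum_eq_single (⟨j, hji⟩ : ι)]
        · rw [if_pos rfl]
        · intro l _ hl
          rw [if_neg]
          intro hh
          exact hl (Subtype.ext hh)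
        · intro hh
          exact absurd (Finset.mem_univ _) hh
    refine alt_zero (m := n - 1) _ ?_ ?_ h2 g hg0 hg T h0 hT ?_
    · have h3 : (fun a b : Fin d => (M a * M b - M b * M a) j i) = F * G := by
        funext a b
        exact hw a b
      rw [h3]
      refine (Matrix.rank_mul_le_left _ _).trans ((Matrix.rank_le_card_width F).trans ?_)
      rw [Fintype.card_sum]
      have : Fintype.card ι = n - 1 := by
        have := Fintype.card_subtype_compl (fun l : Fin n => l = i)
        simp only [Fintype.card_fin, Fintype.card_subtype_eq] at this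
        exact this
      omega
    · intro a b
      rw [Matrix.sub_apply, Matrix.sub_apply]
      ring
    · intro t ht i' hi1 hi2
      have hin : i' < n := by omega
      have h3 : (∑ a : Fin d, t ^ (a : ℕ) • M a) * (∑ a : Fin d, (g ^ i' * t) ^ (a : ℕ) • M a) -
          (∑ a : Fin d, (g ^ i' * t) ^ (a : ℕ) • M a) * (∑ a : Fin d, t ^ (a : ℕ) • M a) = 0 :=
        sub_eq_zero.2 (h t ht i' hi1 hin)
      rw [Finset.sum_mul_sum, Finset.sum_mul_sum, Finset.sum_comm (s := Finset.univ)
        (f := fun x y : Fin d => (g ^ i' * t) ^ (x : ℕ) • M x * t ^ (y : ℕ) • M y),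
        ← Finset.sum_sub_distrib] at h3
      have h4 : (∑ a : Fin d, ((∑ b : Fin d, t ^ (a : ℕ) • M a * (g ^ i' * t) ^ (b : ℕ) • M b) -
          ∑ b : Fin d, (g ^ i' * t) ^ (b : ℕ) • M b * t ^ (a : ℕ) • M a)) j i = 0 := by
        rw [h3]
        rfl
      rw [← h4, Matrix.sum_apply]
      refine Finset.sum_congr rfl fun a _ => ?_
      rw [← Finset.sum_sub_distrib, Matrix.sum_apply]
      refine Finset.sum_congr rfl fun b _ => ?_
      simp only [Matrix.smul_mul, Matrix.mul_smul, Matrix.sub_apply, Matrix.smul_apply,
        smul_eq_mul]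
      ring
  intro a b
  ext j i
  have := congrFun (congrFun (key j i) a) b
  exact sub_eq_zero.1 this

end Pool.Agent.Helper84.TC9
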